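import Pool.Agent.Work.MP_76001c_al.Final

/-!
MP_76001c_al, Q1 (groups of intermediate growth with an almost-identity).

Theorem.  Let `G` be a group generated by `d` elements which acts (not necessarily faithfully)
in one of the following ways:
* on a nonempty set that it separates (Abert's condition);
* by homeomorphisms on a nonempty second countable Hausdorff Baire space, micro-supportedly;
* on a spherically homogeneous rooted tree, all rigid vertex stabilizers acting nontrivially
  (for instance `G` weakly branch).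
Then for every `k ≥ d + 2` no nontrivial word in `F_k` is a `k`-almost-identity of `G`.

Proof.  Given `w ≠ 1` in `z, a_0, ..., a_d` there is `N` such that `w` survives the substitution
`a_i = z ^ (iN) x z ^ (-iN)` (`Model.lean`).  The tuple `z, x, s_i z ^ (iN) x z ^ (-iN)` generates
`G` for all `z, x ∈ G`, and a mixed word over `G` whose image after killing the constants is
nontrivial is not a mixed identity if `G` has a separating action (`Core.lean`).
-/

namespace Pool.Agent.Results.MP_76001c_al.SeparatingActions

open Pool.Agent.MP76001c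

universe u v

/-- `w` is a `k`-almost-identity of `G`: a nontrivial word vanishing on all generating
`k`-tuples. -/
def IsAlmostIdentity (G : Type u) [Group G] {k : ℕ} (w : FreeGroup (Fin k)) : Prop :=
  w ≠ 1 ∧ ∀ g : Fin k → G, Subgroup.closure (Set.range g) = ⊤ → FreeGroup.lift g w = 1

/-- `G` satisfies an almost-identity: it has a `k`-almost-identity for every `k ≥ 1`. -/
def SatisfiesAlmostIdentity (G : Type u) [Group G] : Prop :=
  ∀ k : ℕ, 1 ≤ k → ∃ w : FreeGroup (Fin k), IsAlmostIdentity G w

/-- `G` has an action (faithful or not) which separates the points of a nonempty set, or is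
micro-supported on a nonempty second countable Hausdorff Baire space, or is an action on a rooted
tree all of whose rigid vertex stabilizers act nontrivially. -/
def HasRichAction (G : Type u) [Group G] : Prop :=
  (∃ (X : Type v) (_ : MulAction G X), Nonempty X ∧ Separates G X) ∨
  (∃ (X : Type v) (_ : TopologicalSpace X) (_ : MulAction G X), Nonempty X ∧ T2Space X ∧
    SecondCountableTopology X ∧ BaireSpace X ∧ (∀ g : G, Continuous fun x : X => g • x) ∧
    MicroSupported G X) ∨
  (∃ (m : ℕ → ℕ) (_ : MulAction G (∀ n, Fin (m n))), (∀ n, 0 < m n) ∧ TreeLike G m ∧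
    RigidNontrivial G m)

theorem result (G : Type u) [Group G] (d : ℕ) (s : Fin d → G)
    (hs : Subgroup.closure (Set.range s) = ⊤) (hG : HasRichAction.{u, v} G) :
    (∀ k : ℕ, d + 2 ≤ k → ∀ w : FreeGroup (Fin k), ¬ IsAlmostIdentity G w) ∧
      ¬ SatisfiesAlmostIdentity G := by
  have key : ∀ k : ℕ, d + 2 ≤ k → ∀ w : FreeGroup (Fin k), ¬ IsAlmostIdentity G w := by
    intro k hk w hw
    obtain ⟨hw1, hw2⟩ := hw
    rcases hG with ⟨X, iX, hne, hsep⟩ | ⟨X, tX, iX, hne, ht2, hsc, hb, hc, hm⟩ |
      ⟨m, iX, hm, ht, hr⟩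
    · obtain ⟨t, ht1, ht2⟩ := no_almost hsep d s hs k hk w hw1
      exact ht2 (hw2 t ht1)
    · obtain ⟨x₀, hsep⟩ := micro hc hm
      have : Nonempty (MulAction.orbit G x₀) := ⟨⟨x₀, MulAction.mem_orbit_self x₀⟩⟩
      obtain ⟨t, ht1, ht2⟩ := no_almost hsep d s hs k hk w hw1
      exact ht2 (hw2 t ht1)
    · have hne : Nonempty (∀ n, Fin (m n)) := ⟨fun n => ⟨0, hm n⟩⟩
      obtain ⟨hc, hmic⟩ := tree m ht hr
      obtain ⟨x₀, hsep⟩ := micro hc hmic
      have : Nonempty (MulAction.orbit G x₀) := ⟨⟨x₀, MulAction.mem_orbit_self x₀⟩⟩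
      obtain ⟨t, ht1, ht2⟩ := no_almost hsep d s hs k hk w hw1
      exact ht2 (hw2 t ht1)
  refine ⟨key, fun h => ?_⟩
  obtain ⟨w, hw⟩ := h (d + 2) (by omega)
  exact key (d + 2) le_rfl w hw

end Pool.Agent.Results.MP_76001c_al.SeparatingActions
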